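import Pool.Agent.H180.FF.Stmts
import Pool.Agent.Q6.RS.Core
import Pool.Agent.W401.Cheb.Main

/-!
# The choice of the prime, over all number fields
-/

set_option autoImplicit false

namespace Pool.Agent.Q14.FF

open NumberField Pool.Agent.H180.FF Pool.Agent.H180.RS Pool.Agent.Q6.RS Pool.Agent.W401.Cheb
open scoped Pointwise

/-- separate two square roots -/
theorem sep {L : Type} [Field L] [NumberField L] (P : Gal(L/ℚ) → Prop)
    (hP : ∀ a b, P a → P b → P (a * b)) (u w : L)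
    (hu : ∀ g, P g → g u = u ∨ g u = -u) (hw : ∀ g, P g → g w = w ∨ g w = -w)
    (h1 : ∃ g, P g ∧ g w ≠ w) (h2 : ∃ g, P g ∧ g (w * u) ≠ w * u) :
    ∃ g, (P g ∧ g u = u) ∧ g w ≠ w := by
  obtain ⟨a, ha, haw⟩ := h1
  obtain ⟨b, hb, hbw⟩ := h2
  by_cases hau : a u = u
  · exact ⟨a, ⟨ha, hau⟩, haw⟩
  by_cases hbu : b u = u
  · refine ⟨b, ⟨hb, hbu⟩, fun h => hbw ?_⟩
    rw [map_mul, h, hbu]
  have hau' := (hu a ha).resolve_left hau
  have hbu' := (hu b hb).resolve_left hbu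
  have hbw' : b w = w := by
    rcases hw b hb with h | h
    · exact h
    · exfalso
      apply hbw
      rw [map_mul, h, hbu']
      ring
  refine ⟨a * b, ⟨hP a b ha hb, ?_⟩, ?_⟩
  · rw [AlgEquiv.mul_apply, hbu', map_neg, hau', neg_neg]
  · rw [AlgEquiv.mul_apply, hbw']
    exact haw

theorem sign_of_sq {L : Type} [Field L] [NumberField L] (g : Gal(L/ℚ)) (u c : L)
    (hu : u ^ 2 = c) (hc : g c = c) : g u = u ∨ g u = -u := by
  apply sq_eq_sq_iff_eq_or_eq_neg.mp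
  rw [← map_pow, hu, hc]

theorem cheb2 : PropCheb2 := by
  intro K _ _ m B hm hζ κ _ A x y ρ hρ hns
  classical
  obtain ⟨ζ, hζ⟩ := hζ
  have hm0 : 0 < m := hm.pos
  set β : K := ∏ e, ((x e : K) + y e * ρ e) with hβd
  have hn1 : ¬ IsSquare β := by
    have := hns 1 (by norm_num)
    rwa [Int.cast_one, one_mul] at this
  have hn2 : ¬ IsSquare (-β) := by
    have := hns (-1) (by norm_num)
    rwa [Int.cast_neg, Int.cast_one, neg_mul, one_mul] at this
  have hn3 : ¬ IsSquare (2 * β) := by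
    have := hns 2 (by norm_num)
    exact_mod_cast this
  have hn4 : ¬ IsSquare (-2 * β) := by
    have := hns (-2) (by norm_num)
    rwa [Int.cast_neg, Int.cast_ofNat] at this
  have hβ0 : β ≠ 0 := fun h => hn1 ⟨0, by rw [h]; ring⟩
  obtain ⟨L1, fL1, nL1, i1, θ1, -, hθ1⟩ := exists_galois β
  obtain ⟨L2, fL2, nL2, i2, I2, -, hI2⟩ := exists_galois (-1 : L1)
  obtain ⟨L, fL, nL, i3, s, hgal, hs⟩ := exists_galois (2 : L2)
  set i : K →+* L := i3.comp (i2.comp i1) with hi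
  set θ : L := i3 (i2 θ1) with hθd
  set I : L := i3 I2 with hId
  have hθ : θ ^ 2 = i β := by
    rw [hθd, ← map_pow, ← map_pow, hθ1]
    rfl
  have hI : I ^ 2 = -1 := by
    rw [hId, ← map_pow, hI2, map_neg, map_one, map_neg, map_one]
  have hs2 : s ^ 2 = 2 := by
    rw [hs, map_ofNat]
  -- moving square roots
  have mov : ∀ (w : L) (b : K), w ^ 2 = i b → ¬ IsSquare b →
      ∃ g : Gal(L/ℚ), (∀ x : K, g (i x) = i x) ∧ g w ≠ w := by
    intro w b hw hb
    by_contra hcon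
    push Not at hcon
    obtain ⟨e, he⟩ := gal_range i w (fun g hg => hcon g hg)
    apply hb
    refine ⟨e, i.injective ?_⟩
    rw [← hw, ← he, map_mul, sq]
  have hPm : ∀ a b : Gal(L/ℚ), (∀ x : K, a (i x) = i x) → (∀ x : K, b (i x) = i x) →
      ∀ x : K, (a * b) (i x) = i x := by
    intro a b ha hb x
    rw [AlgEquiv.mul_apply, hb, ha]
  have sI : ∀ g : Gal(L/ℚ), g I = I ∨ g I = -I := fun g =>
    sign_of_sq g I _ hI (by rw [map_neg, map_one])
  have ss : ∀ g : Gal(L/ℚ), g s = s ∨ g s = -s := fun g =>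
    sign_of_sq g s _ hs2 (by rw [map_ofNat])
  have sθ : ∀ g : Gal(L/ℚ), (∀ x : K, g (i x) = i x) → g θ = θ ∨ g θ = -θ := fun g hg =>
    sign_of_sq g θ _ hθ (hg β)
  have hθs : (θ * s) ^ 2 = i (2 * β) := by
    rw [mul_pow, hθ, hs2, map_mul, map_ofNat, mul_comm]
  have sθs : ∀ g : Gal(L/ℚ), (∀ x : K, g (i x) = i x) → g (θ * s) = θ * s ∨ g (θ * s) = -(θ * s) :=
    fun g hg => sign_of_sq g _ _ hθs (hg _)
  have k1 := sep (fun g : Gal(L/ℚ) => ∀ x : K, g (i x) = i x) hPm I θ (fun g _ => sI g) sθ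
    (mov θ β hθ hn1) (mov (θ * I) (-β) (by rw [mul_pow, hθ, hI, map_neg]; ring) hn2)
  have k2 := sep (fun g : Gal(L/ℚ) => ∀ x : K, g (i x) = i x) hPm I (θ * s) (fun g _ => sI g) sθs
    (mov (θ * s) (2 * β) hθs hn3) (mov (θ * s * I) (-2 * β) (by
      rw [mul_pow, hθs, hI, neg_mul, map_neg]; ring) hn4)
  obtain ⟨g, ⟨⟨hg1, hgI⟩, hgs⟩, hg2⟩ := sep
    (fun g : Gal(L/ℚ) => (∀ x : K, g (i x) = i x) ∧ g I = I)
    (fun a b ha hb => ⟨hPm a b ha.1 hb.1, by rw [AlgEquiv.mul_apply, hb.2, ha.2]⟩) s θ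
    (fun g _ => ss g) (fun g hg => sθ g hg.1) k1 k2
  have hgθ : g θ = -θ := (sθ g hg1).resolve_left hg2
  -- the root of unity
  set z8 : L := (s + s * I) / 2 with hz8
  have h20 : (2 : L) ≠ 0 := two_ne_zero
  have hz82 : z8 ^ 2 = I := by
    rw [hz8, div_pow, div_eq_iff (by norm_num)]
    linear_combination (1 + I) ^ 2 * hs2 + 2 * hI
  have hz84 : z8 ^ 4 = -1 := by
    rw [show 4 = 2 * 2 by norm_num, pow_mul, hz82, hI]
  have ho8 : orderOf z8 = 8 := by
    have h1 := orderOf_eq_prime_pow (x := z8) (p := 2) (n := 2) (by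
      norm_num
      rw [hz84]
      intro h
      have : (2 : L) = 0 := by linear_combination -h
      exact h20 this) (by
      norm_num
      rw [show 8 = 4 * 2 by norm_num, pow_mul, hz84]; ring)
    rw [h1]
    norm_num
  have hζL : IsPrimitiveRoot (i ζ) m := hζ.map_of_injective i.injective
  have hom : orderOf (i ζ) = m := hζL.eq_orderOf.symm
  set ξ : L := z8 * i ζ with hξd
  have hoξ : orderOf ξ = 8 * m := by
    rw [hξd, (Commute.all z8 (i ζ)).orderOf_mul_eq_mul_orderOf_of_coprime, ho8, hom]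
    rw [ho8, hom]
    have : Nat.Coprime (2 ^ 3) m := Nat.Coprime.pow_left 3 (Nat.coprime_two_left.2 hm)
    exact this
  have hξ : IsPrimitiveRoot ξ (8 * m) := by
    rw [← hoξ]
    exact IsPrimitiveRoot.orderOf ξ
  have hgξ : g ξ = ξ := by
    rw [hξd, hz8, map_mul, hg1, map_div₀, map_add, map_mul, hgI, hgs, map_ofNat]
  have : NeZero (8 * m) := ⟨by omega⟩
  -- integral elements
  have hρint : ∀ e, IsIntegral ℤ (ρ e) := fun e =>
    IsIntegral.of_pow (n := 2) (by norm_num) (by rw [hρ e]; exact isIntegral_algebraMap)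
  let ρO : κ → 𝓞 K := fun e => ⟨ρ e, hρint e⟩
  let βO : 𝓞 K := ∏ e, ((x e : 𝓞 K) + y e * ρO e)
  have hβO : (βO : K) = β := by
    change algebraMap (𝓞 K) K (∏ e, ((x e : 𝓞 K) + y e * ρO e)) = β
    rw [map_prod, hβd]
    refine Finset.prod_congr rfl fun e _ => ?_
    rw [map_add, map_mul, map_intCast, map_intCast]
    rfl
  let iO : 𝓞 K →+* 𝓞 L := RingOfIntegers.mapRingHom i
  have hiO : ∀ w : 𝓞 K, ((iO w : 𝓞 L) : L) = i w := fun w => rfl
  have hθint : IsIntegral ℤ θ :=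
    IsIntegral.of_pow (n := 2) (by norm_num) (by
      rw [hθ, ← hβO, ← hiO]; exact RingOfIntegers.isIntegral_coe _)
  let θO : 𝓞 L := ⟨θ, hθint⟩
  have hθO : θO ^ 2 = iO βO := by
    apply RingOfIntegers.ext
    rw [co_pow, hiO, hβO, ← hθ]
    rfl
  have hβO0 : iO βO ≠ 0 := by
    intro h
    apply hβ0
    apply i.injective
    rw [← hβO, ← hiO, h, map_zero, co_zero]
  obtain ⟨B1, hB1⟩ := exists_bound (iO βO) hβO0
  obtain ⟨ℓ, ⟨hℓ, hx⟩, hlt⟩ := (infinite_frob L g).exists_gt (B + 8 * m + B1)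
  have hF : Fact ℓ.Prime := ⟨hℓ⟩
  obtain ⟨Φ, hΦ⟩ : ∃ Φ : 𝓞 L →+* AlgebraicClosure (ZMod ℓ), HasFrob ℓ Φ g := by
    unfold xp at hx
    rw [dif_pos hℓ] at hx
    have h3 := (Nat.card_ne_zero.mp hx).1
    obtain ⟨⟨Φ, hΦ⟩⟩ := h3
    exact ⟨Φ, hΦ⟩
  have hsmul : ∀ w : 𝓞 L, ((g • w : 𝓞 L) : L) = g (w : L) := fun w => rfl
  let S : Subring (𝓞 L) :=
    { carrier := {w | g • w = w}
      mul_mem' := fun {a b} ha hb => by
        change g • (a * b) = a * b
        rw [smul_mul', ha, hb]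
      one_mem' := smul_one g
      add_mem' := fun {a b} ha hb => by
        change g • (a + b) = a + b
        rw [smul_add, ha, hb]
      zero_mem' := smul_zero g
      neg_mem' := fun {a} ha => by
        change g • (-a) = -a
        rw [smul_neg, ha] }
  obtain ⟨ψ, hψ⟩ : ∃ ψ : S →+* ZMod ℓ, ∀ w,
      algebraMap (ZMod ℓ) (AlgebraicClosure (ZMod ℓ)) (ψ w) = Φ (w : 𝓞 L) := by
    refine factor (Φ.comp S.subtype) _ (fun w => W54.ChTor.frob_fixed ℓ _ ?_)
    have h3 : g • (w : 𝓞 L) = (w : 𝓞 L) := w.2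
    have h4 := hΦ (w : 𝓞 L)
    rw [h3] at h4
    exact h4.symm
  have hiS : ∀ w : 𝓞 K, iO w ∈ S := by
    intro w
    apply RingOfIntegers.ext
    rw [hsmul, hiO, hg1]
  let jO : 𝓞 K →+* S := iO.codRestrict S hiS
  have hjO : ∀ w : 𝓞 K, ((jO w : S) : 𝓞 L) = iO w := fun w => rfl
  let ξO : 𝓞 L := hξ.toInteger
  have hξS : ξO ∈ S := by
    apply RingOfIntegers.ext
    rw [hsmul]
    exact hgξ
  have hξO : IsPrimitiveRoot (⟨ξO, hξS⟩ : S) (8 * m) :=
    IsPrimitiveRoot.of_map_of_injective (f := S.subtype) (by exact hξ.toInteger_isPrimitiveRoot)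
      S.subtype_injective
  have hdvd : 8 * m ∣ ℓ - 1 := dvd_sub_one ℓ ψ (8 * m) (by omega) _ hξO (by omega)
  have hψβ : ψ (jO βO) = ∏ e, ((x e : ZMod ℓ) + y e * ψ (jO (ρO e))) := by
    change ψ (jO (∏ e, ((x e : 𝓞 K) + y e * ρO e))) = _
    rw [map_prod, map_prod]
    refine Finset.prod_congr rfl fun e _ => ?_
    rw [map_add, map_add, map_mul, map_mul, map_intCast, map_intCast, map_intCast, map_intCast]
  refine ⟨ℓ, hF, ψ.comp jO, fun e => ψ (jO (ρO e)), by omega, hdvd, ?_, ?_⟩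
  · intro e
    rw [← map_pow, ← map_pow]
    have h3 : ρO e ^ 2 = (A e : 𝓞 K) := by
      apply RingOfIntegers.ext
      rw [co_pow, co_int]
      exact hρ e
    rw [h3, map_intCast, map_intCast]
  · rw [← map_prod, ← hψβ, quadraticChar_neg_one_iff_not_isSquare]
    rintro ⟨t, ht⟩
    have h3 : Φ θO ^ 2 = (algebraMap (ZMod ℓ) (AlgebraicClosure (ZMod ℓ)) t) ^ 2 := by
      rw [← map_pow, hθO, ← hjO, ← hψ, ht, map_mul]; ring
    have h4 : Φ θO ^ ℓ = Φ θO := by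
      rcases sq_eq_sq_iff_eq_or_eq_neg.mp h3 with h5 | h5
      · rw [h5, ← map_pow, ZMod.pow_card]
      · rw [h5, ← map_neg, ← map_pow, ZMod.pow_card]
    have h5 : g • θO = -θO := by
      apply RingOfIntegers.ext
      rw [hsmul, co_neg]
      exact hgθ
    have h6 := hΦ θO
    rw [h5, map_neg, h4] at h6
    have h7 : (2 : AlgebraicClosure (ZMod ℓ)) * Φ θO = 0 := by linear_combination -h6
    have hcp : CharP (AlgebraicClosure (ZMod ℓ)) ℓ :=
      charP_of_injective_algebraMap (algebraMap (ZMod ℓ) (AlgebraicClosure (ZMod ℓ))).injective ℓ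
    have h8 : (2 : AlgebraicClosure (ZMod ℓ)) ≠ 0 := by
      intro h
      have h9 : ((2 : ℕ) : AlgebraicClosure (ZMod ℓ)) = 0 := by exact_mod_cast h
      rw [CharP.cast_eq_zero_iff (AlgebraicClosure (ZMod ℓ)) ℓ] at h9
      have := Nat.le_of_dvd (by norm_num) h9
      omega
    have h9 : Φ θO = 0 := (mul_eq_zero.mp h7).resolve_left h8
    refine hB1 ℓ (AlgebraicClosure (ZMod ℓ)) Φ (by omega) ?_
    rw [← hθO, map_pow, h9]; ring

end Pool.Agent.Q14.FF
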