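import Pool.Agent.H180.FF.Stmts
import Pool.Agent.Y547.UE.HD
import Mathlib.Analysis.Fourier.FiniteAbelian.PontryaginDuality

/-!
# Products of Gauss sums over an extension field (Davenport and Hasse)
-/

set_option autoImplicit false

namespace Pool.Agent.Q14.FF

open Finset Pool.Agent.H180.FF Pool.Agent.Y547.UE Pool.Agent.Y145.KS

section

variable {F : Type} [Field F] [Fintype F] (E : Type) [Field E] [Fintype E] [Algebra F E]

/-- `χ ↦ χ ∘ Norm` as a homomorphism -/
noncomputable def nchHom : MulChar F ℂ →* MulChar E ℂ where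
  toFun := nch E
  map_one' := by
    ext x
    rw [nch_apply, MulChar.one_apply_coe]
    have : IsUnit (Algebra.norm F (x : E)) := x.isUnit.map _
    rw [MulChar.one_apply this]
  map_mul' := nch_mul E

theorem nchHom_apply (χ : MulChar F ℂ) : nchHom E χ = nch E χ := rfl

theorem nchHom_inj : Function.Injective (nchHom E (F := F)) := by
  rw [injective_iff_map_eq_one]
  intro χ h
  by_contra hc
  exact nch_ne_one E hc h

theorem exists_nch {m : ℕ} (hm : m ∣ Fintype.card F - 1) (χ : MulChar E ℂ)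
    (hχ : χ ^ m = 1) : ∃ χ0 : MulChar F ℂ, nch E χ0 = χ := by
  classical
  set N : Eˣ →* Fˣ := Units.map (Algebra.norm F (S := E)) with hN
  have hs : Function.Surjective N := FiniteField.unitsMap_norm_surjective F E
  obtain ⟨g, hg⟩ := IsCyclic.exists_monoid_generator (α := Eˣ)
  have hgN : orderOf (N g) = Fintype.card F - 1 := by
    have : Nat.card (Subgroup.zpowers (N g)) = Nat.card Fˣ := by
      have h2 : Subgroup.zpowers (N g) = ⊤ := by
        rw [eq_top_iff]
        intro y _
        obtain ⟨x, rfl⟩ := hs y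
        obtain ⟨n, hn⟩ := (Submonoid.mem_powers_iff _ _).1 (hg x)
        rw [← hn, map_pow]
        exact Subgroup.npow_mem_zpowers _ _
      rw [h2]
      exact Nat.card_congr (Equiv.refl _) |>.trans (by simp)
    rw [Nat.card_zpowers] at this
    rw [this, Nat.card_eq_fintype_card, Fintype.card_units]
  have hker : N.ker ≤ (χ.toUnitHom).ker := by
    intro x hx
    rw [MonoidHom.mem_ker] at hx ⊢
    obtain ⟨n, hn⟩ := (Submonoid.mem_powers_iff _ _).1 (hg x)
    rw [← hn, map_pow] at hx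
    have h1 : Fintype.card F - 1 ∣ n := by
      rw [← hgN]
      exact orderOf_dvd_of_pow_eq_one hx
    obtain ⟨j, hj⟩ := dvd_trans hm h1
    rw [← hn]
    ext
    rw [MulChar.coe_toUnitHom, Units.val_pow_eq_pow_val, Units.val_one, map_pow, hj, pow_mul,
      ← MulChar.pow_apply_coe, hχ, MulChar.one_apply_coe, one_pow]
  refine ⟨MulChar.ofUnitHom (N.liftOfSurjective hs ⟨χ.toUnitHom, hker⟩), ?_⟩
  ext x
  rw [nch_apply]
  have h1 : Algebra.norm F (x : E) = ((N x : Fˣ) : F) := rfl
  rw [h1, MulChar.ofUnitHom_coe, MonoidHom.liftOfRightInverse_comp_apply, MulChar.coe_toUnitHom]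

end

theorem exists_shift {E : Type} [Field E] [Fintype E] {φ : AddChar E ℂ} (hφ : φ.IsPrimitive)
    (ψ : AddChar E ℂ) (hψ : ψ ≠ 1) : ∃ b : Eˣ, φ.mulShift b = ψ := by
  classical
  have hinj : Function.Injective φ.mulShift := AddChar.to_mulShift_inj_of_isPrimitive hφ
  have hbij : Function.Bijective φ.mulShift := by
    rw [Fintype.bijective_iff_injective_and_card]
    exact ⟨hinj, (AddChar.card_eq (α := E)).symm⟩
  obtain ⟨b, hb⟩ := hbij.2 ψ
  have hb0 : b ≠ 0 := by
    rintro rfl
    rw [AddChar.mulShift_zero] at hb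
    exact hψ hb.symm
  exact ⟨Units.mk0 b hb0, hb⟩

theorem prod_apply {E : Type} [Field E] {m : ℕ} (χ : MulChar E ℂ) (hχ : χ ^ m = 1) (b : Eˣ)
    (s : Multiset (ZMod m)) (hs : s.sum = 0) [NeZero m] :
    (s.map fun a => (χ ^ a.val) (b : E)).prod = 1 := by
  have h1 : (s.map fun a => (χ ^ a.val) (b : E)).prod = χ b ^ (s.map ZMod.val).sum := by
    clear hs
    induction s using Multiset.induction_on with
    | empty => simp
    | cons a s ih =>
      rw [Multiset.map_cons, Multiset.prod_cons, ih, Multiset.map_cons, Multiset.sum_cons, pow_add,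
        MulChar.pow_apply_coe]
  have h2 : m ∣ (s.map ZMod.val).sum := by
    rw [← ZMod.natCast_eq_zero_iff]
    have h3 : (((s.map ZMod.val).sum : ℕ) : ZMod m) = s.sum := by
      clear hs h1
      induction s using Multiset.induction_on with
      | empty => simp
      | cons a s ih =>
        rw [Multiset.map_cons, Multiset.sum_cons, Nat.cast_add, ih, Multiset.sum_cons,
          ZMod.natCast_zmod_val]
    rw [h3, hs]
  obtain ⟨j, hj⟩ := h2
  rw [h1, hj, pow_mul, ← MulChar.pow_apply_coe, hχ, MulChar.one_apply_coe, one_pow]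

theorem lift : PropLift := by
  intro ℓ k m hℓ hk hm F _ _ hF χ ψ hψ hχ
  have hchar : CharP F ℓ := by
    obtain ⟨p, hp⟩ := CharP.exists F
    have hpp : p.Prime := CharP.char_is_prime F p
    obtain ⟨n, hn, hc⟩ := FiniteField.card F p
    rw [hF] at hc
    have h1 : ℓ ∣ p ^ (n : ℕ) := by rw [← hc]; exact dvd_pow_self _ hk.ne'
    have h2 := hℓ.out.dvd_of_dvd_pow h1
    rw [(Nat.prime_dvd_prime_iff_eq hℓ.out hpp).1 h2]
    exact hp
  let _ : Algebra (ZMod ℓ) F := ZMod.algebra F ℓ
  have : Module.Finite (ZMod ℓ) F := Module.Finite.of_finite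
  have hfr : Module.finrank (ZMod ℓ) F = k := by
    have h1 := Module.card_eq_pow_finrank (K := ZMod ℓ) (V := F)
    rw [hF, ZMod.card] at h1
    exact (Nat.pow_right_injective hℓ.out.two_le h1).symm
  have hm0 : 0 < m := by
    rw [← hχ]
    exact orderOf_pos χ
  have : NeZero m := ⟨hm0.ne'⟩
  obtain ⟨χ0, hχ0⟩ := exists_nch (F := ZMod ℓ) F (m := m) (by rw [ZMod.card]; exact hm) χ
    (by rw [← hχ]; exact pow_orderOf_eq_one χ)
  obtain ⟨ψ0, hψ0⟩ : ∃ ψ0 : AddChar (ZMod ℓ) ℂ, ψ0 ≠ 1 := by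
    refine ⟨ZMod.stdAddChar, fun h => ?_⟩
    have h1 := ZMod.isPrimitive_stdAddChar ℓ
    have h2 := h1 one_ne_zero
    rw [h] at h2
    apply h2
    ext x
    simp
  refine ⟨χ0, ψ0, hψ0, ?_, ?_⟩
  · rw [← hχ, ← hχ0, ← nchHom_apply, orderOf_injective _ (nchHom_inj F)]
  · intro s h0 hs
    obtain ⟨b, hb⟩ := exists_shift (psi_isPrimitive hψ0 F) ψ hψ
    have h1 : ∀ a : ZMod m, gaussSum (χ ^ a.val) (psi ψ0 F) =
        (χ ^ a.val) (b : F) * gaussSum (χ ^ a.val) ψ := by
      intro a
      rw [← hb]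
      exact (gaussSum_mulShift _ _ b).symm
    have h2 : ∀ a : ZMod m, gaussSum (χ ^ a.val) (psi ψ0 F) =
        (-1) ^ (k - 1) * gaussSum (χ0 ^ a.val) ψ0 ^ k := by
      intro a
      rw [← hχ0, ← nchHom_apply, ← map_pow, nchHom_apply, gs_nch F _ hψ0, hfr]
    have h3 : (s.map fun a => gaussSum (χ ^ a.val) ψ).prod =
        (s.map fun a => gaussSum (χ ^ a.val) (psi ψ0 F)).prod := by
      have h4 := prod_apply χ (m := m) (by rw [← hχ]; exact pow_orderOf_eq_one χ) b s hs
      rw [Multiset.map_congr rfl (fun a _ => h1 a), Multiset.prod_map_mul, h4, one_mul]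
    rw [h3, Multiset.map_congr rfl (fun a _ => h2 a), Multiset.prod_map_mul, Multiset.map_const',
      Multiset.prod_replicate, ← pow_mul, Multiset.prod_map_pow]

end Pool.Agent.Q14.FF
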